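import Mathlib

/-!
Degree sums of graphs without pentagons in which every set of vertices without a path on four
vertices is small.
-/

namespace Pool.Agent.Lib.MP_bf4c0e_co

open Finset

variable {V : Type*} [DecidableEq V]

/-- No pentagon in `S`. -/
def C5free (R : V → V → Prop) (S : Finset V) : Prop :=
  ∀ a ∈ S, ∀ b ∈ S, ∀ c ∈ S, ∀ d ∈ S, ∀ e ∈ S, R a b → R b c → R c d → R d e → R e a →
    a ≠ c → a ≠ d → b ≠ d → b ≠ e → c ≠ e → False

/-- No path on four vertices in `U`. -/
def P4free (R : V → V → Prop) (U : Finset V) : Prop :=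
  ∀ a ∈ U, ∀ b ∈ U, ∀ c ∈ U, ∀ d ∈ U, R a b → R b c → R c d → a ≠ c → a ≠ d → b ≠ d → False

theorem P4free.mono {R : V → V → Prop} {U U' : Finset V} (h : P4free R U) (hU : U' ⊆ U) :
    P4free R U' :=
  fun a ha b hb c hc d hd => h a (hU ha) b (hU hb) c (hU hc) d (hU hd)

theorem C5free.mono {R : V → V → Prop} {U U' : Finset V} (h : C5free R U) (hU : U' ⊆ U) :
    C5free R U' :=
  fun a ha b hb c hc d hd e he => h a (hU ha) b (hU hb) c (hU hc) d (hU hd) e (hU he)

section

variable {R : V → V → Prop} [DecidableRel R] (hsymm : ∀ a b, R a b → R b a) (hirr : ∀ a, ¬ R a a)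

include hsymm hirr

theorem p4free_nbhd {S : Finset V} (hS : C5free R S) {v : V} (hv : v ∈ S) :
    P4free R (S.filter (R v)) := by
  intro a ha b hb c hc d hd hab hbc hcd hac had hbd
  rw [mem_filter] at ha hb hc hd
  refine hS v hv a ha.1 b hb.1 c hc.1 d hd.1 ha.2 hab hbc hcd (hsymm _ _ hd.2) ?_ ?_ hac had hbd
  · rintro rfl; exact hirr _ hb.2
  · rintro rfl; exact hirr _ hc.2

/-- The vertex `v` together with the vertices at distance two. -/
def second (R : V → V → Prop) [DecidableRel R] (S : Finset V) (v : V) : Finset V :=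
  S.filter (fun w => w = v ∨ (¬ R v w ∧ ∃ p ∈ S, R v p ∧ R p w))

theorem p4free_second {S : Finset V} (hS : C5free R S) {v : V} (hv : v ∈ S) :
    P4free R (second R S v) := by
  have key : ∀ x ∈ second R S v, ∀ y ∈ second R S v, R x y → x ∈ S ∧ x ≠ v ∧ ¬ R v x ∧
      ∃ p ∈ S, R v p ∧ R p x := by
    intro x hx y hy hxy
    unfold second at hx hy
    rw [mem_filter] at hx hy
    rcases hx.2 with rfl | h
    · exfalso
      rcases hy.2 with rfl | h'
      · exact hirr _ hxy
      · exact h'.1 hxy
    · refine ⟨hx.1, ?_, h⟩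
      rintro rfl
      rcases hy.2 with rfl | h'
      · exact hirr _ hxy
      · exact h'.1 hxy
  have same : ∀ x ∈ S, ∀ y ∈ S, x ≠ v → y ≠ v → ¬ R v x → ¬ R v y → R x y → ∀ p ∈ S, ∀ q ∈ S,
      R v p → R p x → R v q → R q y → p = q := by
    intro x hx y hy hxv hyv hvx hvy hxy p hp q hq hvp hpx hvq hqy
    by_contra hpq
    refine hS v hv p hp x hx y hy q hq hvp hpx hxy (hsymm _ _ hqy) (hsymm _ _ hvq) hxv.symm
      hyv.symm ?_ hpq ?_
    · rintro rfl; exact hvy hvp
    · rintro rfl; exact hvx hvq
  intro a ha b hb c hc d hd hab hbc hcd hac had hbd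
  obtain ⟨haS, hav, hva, p, hp, hvp, hpa⟩ := key a ha b hb hab
  obtain ⟨hbS, hbv, hvb, q, hq, hvq, hqb⟩ := key b hb c hc hbc
  obtain ⟨hcS, hcv, hvc, r, hr, hvr, hrc⟩ := key c hc d hd hcd
  obtain ⟨hdS, hdv, hvd, s, hs, hvs, hsd⟩ := key d hd c hc (hsymm _ _ hcd)
  have e1 := same a haS b hbS hav hbv hva hvb hab p hp q hq hvp hpa hvq hqb
  have e2 := same b hbS c hcS hbv hcv hvb hvc hbc q hq r hr hvq hqb hvr hrc
  have e3 := same c hcS d hdS hcv hdv hvc hvd hcd r hr s hs hvr hrc hvs hsd
  subst e1 e2 e3
  exact p4free_nbhd hsymm hirr hS hp a (mem_filter.2 ⟨haS, hpa⟩) b (mem_filter.2 ⟨hbS, hqb⟩) c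
    (mem_filter.2 ⟨hcS, hrc⟩) d (mem_filter.2 ⟨hdS, hsd⟩) hab hbc hcd hac had hbd

/-- The ball of radius two. -/
def ball (R : V → V → Prop) [DecidableRel R] (S : Finset V) (v : V) : Finset V :=
  S.filter (fun w => w = v ∨ R v w ∨ ∃ p ∈ S, R v p ∧ R p w)

theorem card_ball {S : Finset V} (hS : C5free R S) {M : ℕ}
    (hM : ∀ U ⊆ S, P4free R U → U.card ≤ M) {v : V} (hv : v ∈ S) :
    (ball R S v).card ≤ 2 * M := by
  have hsub : ball R S v ⊆ (S.filter (R v)) ∪ second R S v := by
    intro w hw
    unfold ball at hw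
    unfold second
    rw [mem_filter] at hw
    rw [mem_union, mem_filter, mem_filter]
    by_cases h : R v w
    · exact Or.inl ⟨hw.1, h⟩
    · right
      refine ⟨hw.1, ?_⟩
      rcases hw.2 with h' | h' | h'
      · exact Or.inl h'
      · exact absurd h' h
      · exact Or.inr ⟨h, h'⟩
  have h1 := hM _ (filter_subset _ _) (p4free_nbhd hsymm hirr hS hv)
  have h2 := hM (second R S v) (filter_subset _ _) (p4free_second hsymm hirr hS hv)
  calc (ball R S v).card ≤ ((S.filter (R v)) ∪ second R S v).card := card_le_card hsub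
    _ ≤ (S.filter (R v)).card + (second R S v).card := card_union_le _ _
    _ ≤ 2 * M := by omega

/-- The main lemma: a large set without a path on four vertices. -/
theorem exists_p4free {S : Finset V} (hS : C5free R S) {M : ℕ}
    (hM : ∀ U ⊆ S, P4free R U → U.card ≤ M) :
    ∀ (n : ℕ) (W : Finset V), W.card = n → W ⊆ S → ∃ U ⊆ W, P4free R U ∧
      ∑ u ∈ W, (S.filter (R u)).card ≤ 2 * M * U.card := by
  intro n
  induction n using Nat.strong_induction_on with
  | _ n ih =>
    intro W hWn hWS
    by_cases h0 : ∑ u ∈ W, (S.filter (R u)).card = 0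
    · refine ⟨∅, empty_subset _, ?_, by simp [h0]⟩
      intro a ha; simp at ha
    -- double counting
    have hgain : ∑ v ∈ S, (W.filter (R v)).card = ∑ u ∈ W, (S.filter (R u)).card := by
      simp only [card_filter]
      rw [sum_comm]
      refine sum_congr rfl fun u _ => sum_congr rfl fun v _ => ?_
      by_cases h : R v u
      · simp [h, hsymm _ _ h]
      · have : ¬ R u v := fun h' => h (hsymm _ _ h')
        simp [h, this]
    have hcost : ∑ v ∈ S, ∑ u ∈ W.filter (fun u => u ∈ ball R S v), (S.filter (R u)).card =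
        ∑ u ∈ W, (ball R S u).card * (S.filter (R u)).card := by
      simp only [sum_filter]
      rw [sum_comm]
      refine sum_congr rfl fun u hu => ?_
      rw [← sum_filter, sum_const, smul_eq_mul]
      congr 2
      ext v
      unfold ball
      simp only [mem_filter]
      constructor
      · rintro ⟨hv, _, h | h | ⟨p, hp, h1, h2⟩⟩
        · exact ⟨hv, Or.inl h.symm⟩
        · exact ⟨hv, Or.inr (Or.inl (hsymm _ _ h))⟩
        · exact ⟨hv, Or.inr (Or.inr ⟨p, hp, hsymm _ _ h2, hsymm _ _ h1⟩)⟩
      · rintro ⟨hv, h | h | ⟨p, hp, h1, h2⟩⟩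
        · exact ⟨hv, hWS hu, Or.inl h.symm⟩
        · exact ⟨hv, hWS hu, Or.inr (Or.inl (hsymm _ _ h))⟩
        · exact ⟨hv, hWS hu, Or.inr (Or.inr ⟨p, hp, hsymm _ _ h2, hsymm _ _ h1⟩)⟩
    have hle : ∑ v ∈ S, ∑ u ∈ W.filter (fun u => u ∈ ball R S v), (S.filter (R u)).card ≤
        ∑ v ∈ S, 2 * M * (W.filter (R v)).card := by
      rw [hcost, ← mul_sum, hgain, mul_sum]
      refine sum_le_sum fun u hu => ?_
      exact Nat.mul_le_mul_right _ (card_ball hsymm hirr hS hM (hWS hu))
    obtain ⟨v, hv, hvpos, hvle⟩ : ∃ v ∈ S, 0 < (W.filter (R v)).card ∧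
        ∑ u ∈ W.filter (fun u => u ∈ ball R S v), (S.filter (R u)).card ≤
          2 * M * (W.filter (R v)).card := by
      by_contra hcon
      push Not at hcon
      have hex : ∃ v ∈ S, 0 < (W.filter (R v)).card := by
        by_contra hcon'
        push Not at hcon'
        apply h0
        rw [← hgain]
        exact sum_eq_zero fun v hv => Nat.le_zero.1 (hcon' v hv)
      obtain ⟨v₀, hv₀, hpos⟩ := hex
      have hlt : ∑ v ∈ S, 2 * M * (W.filter (R v)).card <
          ∑ v ∈ S, ∑ u ∈ W.filter (fun u => u ∈ ball R S v), (S.filter (R u)).card := by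
        apply sum_lt_sum
        · intro v hv
          rcases Nat.eq_zero_or_pos (W.filter (R v)).card with h | h
          · rw [h]; simp
          · exact (hcon v hv h).le
        · exact ⟨v₀, hv₀, hcon v₀ hv₀ hpos⟩
      omega
    -- the induction step
    set W' := W.filter (fun u => u ∉ ball R S v) with hW'
    have hW'lt : W'.card < n := by
      rw [← hWn]
      apply card_lt_card
      rw [ssubset_iff_of_subset (filter_subset _ _)]
      obtain ⟨u, hu⟩ := card_pos.1 hvpos
      rw [mem_filter] at hu
      refine ⟨u, hu.1, fun h => ?_⟩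
      rw [mem_filter] at h
      apply h.2
      unfold ball
      rw [mem_filter]
      exact ⟨hWS hu.1, Or.inr (Or.inl hu.2)⟩
    obtain ⟨U', hU'W, hU'P, hU's⟩ := ih _ hW'lt W' rfl ((filter_subset _ _).trans hWS)
    refine ⟨U' ∪ W.filter (R v), ?_, ?_, ?_⟩
    · exact union_subset (hU'W.trans (filter_subset _ _)) (filter_subset _ _)
    · -- no edges between the two parts
      have hno : ∀ x ∈ U', ∀ y ∈ W.filter (R v), ¬ R x y := by
        intro x hx y hy hxy
        have hx' := hU'W hx
        rw [hW', mem_filter] at hx'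
        rw [mem_filter] at hy
        apply hx'.2
        unfold ball
        rw [mem_filter]
        exact ⟨hWS hx'.1, Or.inr (Or.inr ⟨y, hWS hy.1, hy.2, hsymm _ _ hxy⟩)⟩
      have hP2 : P4free R (W.filter (R v)) :=
        (p4free_nbhd hsymm hirr hS hv).mono (filter_subset_filter _ hWS)
      have side : ∀ x ∈ U' ∪ W.filter (R v), ∀ y ∈ U' ∪ W.filter (R v), R x y →
          (x ∈ U' ↔ y ∈ U') := by
        intro x hx y hy hxy
        rw [mem_union] at hx hy
        constructor
        · intro hx'
          rcases hy with h | h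
          · exact h
          · exact absurd hxy (hno x hx' y h)
        · intro hy'
          rcases hx with h | h
          · exact h
          · exact absurd (hsymm _ _ hxy) (hno y hy' x h)
      intro a ha b hb c hc d hd hab hbc hcd hac had hbd
      have s1 := side a ha b hb hab
      have s2 := side b hb c hc hbc
      have s3 := side c hc d hd hcd
      by_cases h : a ∈ U'
      · exact hU'P a h b (s1.1 h) c (s2.1 (s1.1 h)) d (s3.1 (s2.1 (s1.1 h))) hab hbc hcd hac had
          hbd
      · have hb' : b ∉ U' := fun h' => h (s1.2 h')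
        have hc' : c ∉ U' := fun h' => hb' (s2.2 h')
        have hd' : d ∉ U' := fun h' => hc' (s3.2 h')
        exact hP2 a ((mem_union.1 ha).resolve_left h) b ((mem_union.1 hb).resolve_left hb') c
          ((mem_union.1 hc).resolve_left hc') d ((mem_union.1 hd).resolve_left hd') hab hbc hcd
          hac had hbd
    · have hdisj : Disjoint U' (W.filter (R v)) := by
        rw [disjoint_left]
        intro x hx hx'
        have h1 := hU'W hx
        rw [hW', mem_filter] at h1
        rw [mem_filter] at hx'
        apply h1.2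
        unfold ball
        rw [mem_filter]
        exact ⟨hWS h1.1, Or.inr (Or.inl hx'.2)⟩
      rw [card_union_of_disjoint hdisj, mul_add]
      have hsplit : ∑ u ∈ W, (S.filter (R u)).card =
          ∑ u ∈ W.filter (fun u => u ∈ ball R S v), (S.filter (R u)).card +
            ∑ u ∈ W', (S.filter (R u)).card := by
        rw [hW', sum_filter_add_sum_filter_not]
      omega

/-- The degree sum is at most `2 * M ^ 2`. -/
theorem sum_degrees {S : Finset V} (hS : C5free R S) {M : ℕ}
    (hM : ∀ U ⊆ S, P4free R U → U.card ≤ M) :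
    ∑ u ∈ S, (S.filter (R u)).card ≤ 2 * M * M := by
  obtain ⟨U, hUS, hUP, h⟩ := exists_p4free hsymm hirr hS hM _ S rfl (Subset.refl _)
  exact h.trans (Nat.mul_le_mul_left _ (hM U hUS hUP))

/-- The degree sum of a graph without a path on four vertices. -/
theorem sum_degrees_p4free :
    ∀ (n : ℕ) (U : Finset V), U.card = n → P4free R U →
      ∑ u ∈ U, (U.filter (R u)).card ≤ 2 * n := by
  intro n
  induction n with
  | zero =>
    intro U hU _
    rw [card_eq_zero] at hU
    subst hU
    simp
  | succ n ih =>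
    intro U hU hP
    by_cases hsmall : ∃ v ∈ U, (U.filter (R v)).card ≤ 1
    · obtain ⟨v, hv, hv1⟩ := hsmall
      have hcard : (U.erase v).card = n := by rw [card_erase_of_mem hv, hU]; rfl
      have h1 := ih _ hcard (hP.mono (erase_subset _ _))
      rw [← add_sum_erase _ _ hv]
      have h2 : ∑ u ∈ U.erase v, (U.filter (R u)).card =
          ∑ u ∈ U.erase v, ((U.erase v).filter (R u)).card +
            ∑ u ∈ U.erase v, (if R u v then 1 else 0) := by
        rw [← sum_add_distrib]
        refine sum_congr rfl fun u hu => ?_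
        by_cases h : R u v
        · rw [if_pos h]
          have : (U.erase v).filter (R u) = (U.filter (R u)).erase v := by
            rw [filter_erase]
          rw [this, card_erase_of_mem (mem_filter.2 ⟨hv, h⟩)]
          have : 0 < (U.filter (R u)).card := card_pos.2 ⟨v, mem_filter.2 ⟨hv, h⟩⟩
          omega
        · rw [if_neg h, add_zero]
          congr 1
          ext w
          simp only [mem_filter, mem_erase]
          constructor
          · rintro ⟨hw, hw'⟩
            exact ⟨⟨fun e => h (e ▸ hw'), hw⟩, hw'⟩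
          · rintro ⟨⟨_, hw⟩, hw'⟩
            exact ⟨hw, hw'⟩
      have h3 : ∑ u ∈ U.erase v, (if R u v then 1 else 0) ≤ (U.filter (R v)).card := by
        rw [← card_filter]
        apply card_le_card
        intro u hu
        rw [mem_filter, mem_erase] at hu
        rw [mem_filter]
        exact ⟨hu.1.2, hsymm _ _ hu.2⟩
      omega
    · push Not at hsmall
      have hdeg : ∀ b ∈ U, (U.filter (R b)).card ≤ 2 := by
        intro b hb
        obtain ⟨a, ha⟩ : (U.filter (R b)).Nonempty := card_pos.1 (by have := hsmall b hb; omega)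
        rw [mem_filter] at ha
        obtain ⟨c, hc, hcb⟩ : ∃ c ∈ U.filter (R a), c ≠ b := by
          have := hsmall a ha.1
          exact exists_mem_ne this b
        rw [mem_filter] at hc
        have hsub : U.filter (R b) ⊆ {a, c} := by
          intro x hx
          rw [mem_filter] at hx
          rw [mem_insert, mem_singleton]
          by_contra hcon
          push Not at hcon
          exact hP x hx.1 b hb a ha.1 c hc.1 (hsymm _ _ hx.2) ha.2 hc.2 hcon.1 hcon.2 hcb.symm
        exact (card_le_card hsub).trans card_le_two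
      calc ∑ u ∈ U, (U.filter (R u)).card ≤ ∑ u ∈ U, 2 := sum_le_sum hdeg
        _ = 2 * (n + 1) := by rw [sum_const, hU, smul_eq_mul, mul_comm]

end

end Pool.Agent.Lib.MP_bf4c0e_co
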