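import Mathlib
import Pool.Agent.Lib.MP_bf4c0e_co.Graph

/-!
The recursion on the number of colours that may contain paths on four vertices, and the closed
form of the resulting bound.
-/

namespace Pool.Agent.Lib.MP_bf4c0e_co

open Finset

/-- The graph of the colour `i`. -/
def col {V : Type*} {k : ℕ} (c : V → V → Fin k) (i : Fin k) (a b : V) : Prop :=
  a ≠ b ∧ c a b = i

instance {V : Type*} [DecidableEq V] {k : ℕ} (c : V → V → Fin k) (i : Fin k) :
    DecidableRel (col c i) :=
  fun a b => inferInstanceAs (Decidable (a ≠ b ∧ c a b = i))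

/-- The bound given by the recursion. -/
noncomputable def bd (k : ℕ) : ℕ → ℝ
  | 0 => 2 * k + 1
  | l + 1 => (2 * ((k : ℝ) - (l + 1)) + 1) + Real.sqrt (2 * (l + 1)) * bd k l

theorem bd_nonneg (k : ℕ) : ∀ l ≤ k, 0 ≤ bd k l := by
  intro l
  induction l with
  | zero => intro _; unfold bd; positivity
  | succ l ih =>
    intro hl
    unfold bd
    have h1 : ((l : ℝ) + 1) ≤ k := by exact_mod_cast hl
    have h2 := ih (by omega)
    have h3 : 0 ≤ Real.sqrt (2 * (l + 1)) * bd k l := mul_nonneg (Real.sqrt_nonneg _) h2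
    linarith

/-- `√(2^l l!)`. -/
noncomputable def den (l : ℕ) : ℝ := Real.sqrt (2 ^ l * (l.factorial : ℝ))

theorem den_succ (l : ℕ) : den (l + 1) = Real.sqrt (2 * (l + 1)) * den l := by
  unfold den
  rw [← Real.sqrt_mul (by positivity)]
  congr 1
  rw [Nat.factorial_succ]
  push_cast
  ring

theorem den_nonneg (l : ℕ) : 0 ≤ den l := Real.sqrt_nonneg _

theorem bd_le (k : ℕ) : ∀ l, l + 1 ≤ k →
    bd k (l + 1) ≤ 5 * k * den (l + 1) - (2 * ((k : ℝ) - (l + 1)) + 1) := by
  intro l
  induction l with
  | zero =>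
    intro hl
    have hk : (1 : ℝ) ≤ k := by exact_mod_cast hl
    have hs : Real.sqrt 2 ^ 2 = 2 := Real.sq_sqrt (by norm_num)
    have hs0 : 0 ≤ Real.sqrt 2 := Real.sqrt_nonneg _
    have h1 : Real.sqrt 2 ≤ 2 := by nlinarith
    have h2 : 4 ≤ 3 * Real.sqrt 2 := by nlinarith
    have e : den (0 + 1) = Real.sqrt 2 := by
      unfold den; norm_num
    rw [e]
    simp only [bd]
    norm_num
    nlinarith
  | succ l ih =>
    intro hl
    have h1 : ((l : ℝ) + 1 + 1) ≤ k := by exact_mod_cast hl
    have h2 := ih (by omega)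
    rw [den_succ (l + 1)]
    rw [bd]
    push_cast
    have hs : 2 ≤ Real.sqrt (2 * ((l : ℝ) + 1 + 1)) := by
      rw [Real.le_sqrt (by norm_num) (by positivity)]
      have : (0 : ℝ) ≤ l := Nat.cast_nonneg l
      linarith
    set s := Real.sqrt (2 * ((l : ℝ) + 1 + 1)) with hsdef
    have h3 : s * bd k (l + 1) ≤ s * (5 * k * den (l + 1) - (2 * ((k : ℝ) - (l + 1)) + 1)) :=
      mul_le_mul_of_nonneg_left h2 (by linarith)
    have h4 : 2 * (2 * ((k : ℝ) - (l + 1)) + 1) ≤ s * (2 * ((k : ℝ) - (l + 1)) + 1) :=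
      mul_le_mul_of_nonneg_right hs (by linarith)
    nlinarith

theorem card_le_bd {V : Type*} [DecidableEq V] {k : ℕ} (c : V → V → Fin k)
    (hc : ∀ a b, c a b = c b a) :
    ∀ (l : ℕ) (L : Finset (Fin k)), L.card = l → ∀ S : Finset V,
      (∀ i, C5free (col c i) S) → (∀ i, i ∉ L → P4free (col c i) S) → (S.card : ℝ) ≤ bd k l := by
  have hsymm : ∀ i a b, col c i a b → col c i b a := by
    rintro i a b ⟨h1, h2⟩
    exact ⟨h1.symm, by rw [hc]; exact h2⟩
  have hirr : ∀ i a, ¬ col c i a a := fun i a h => h.1 rfl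
  have hcount : ∀ S : Finset V, ∑ i, ∑ u ∈ S, (S.filter (col c i u)).card =
      S.card * (S.card - 1) := by
    intro S
    rw [sum_comm]
    have : ∀ u ∈ S, ∑ i, (S.filter (col c i u)).card = S.card - 1 := by
      intro u hu
      rw [← card_erase_of_mem hu]
      rw [card_eq_sum_card_fiberwise (f := fun v => c u v) (t := univ) (fun x _ => mem_univ _)]
      refine sum_congr rfl fun i _ => ?_
      congr 1
      ext v
      simp only [mem_filter, mem_erase, col]
      constructor
      · rintro ⟨h1, h2, h3⟩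
        exact ⟨⟨h2.symm, h1⟩, h3⟩
      · rintro ⟨⟨h1, h2⟩, h3⟩
        exact ⟨h2, h1.symm, h3⟩
    rw [sum_congr rfl this, sum_const, smul_eq_mul]
  intro l
  induction l with
  | zero =>
    intro L hL S _ hP
    rw [card_eq_zero] at hL
    subst hL
    have h1 : ∑ i : Fin k, ∑ u ∈ S, (S.filter (col c i u)).card ≤ ∑ i : Fin k, 2 * S.card :=
      sum_le_sum fun i _ =>
        sum_degrees_p4free (hsymm i) (hirr i) _ S rfl (hP i (notMem_empty _))
    rw [hcount, sum_const, card_univ, Fintype.card_fin, smul_eq_mul] at h1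
    rcases Nat.eq_zero_or_pos S.card with h0 | h0
    · rw [h0]
      exact_mod_cast bd_nonneg k 0 (Nat.zero_le _)
    · have h2 : S.card * (S.card - 1) ≤ S.card * (2 * k) := by
        calc _ ≤ _ := h1
          _ = _ := by ring
      have h3 := Nat.le_of_mul_le_mul_left h2 h0
      have h4 : S.card ≤ 2 * k + 1 := by omega
      unfold bd
      exact_mod_cast h4
  | succ l ih =>
    intro L hL S hC hP
    have hLk : l + 1 ≤ k := by
      rw [← hL]
      exact (card_le_univ _).trans (by simp)
    have hbd := bd_nonneg k l (by omega)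
    set M := ⌊bd k l⌋₊ with hM
    have hMr : (M : ℝ) ≤ bd k l := Nat.floor_le hbd
    have hU : ∀ i ∈ L, ∀ U ⊆ S, P4free (col c i) U → U.card ≤ M := by
      intro i hi U hUS hUP
      apply Nat.le_floor
      apply ih (L.erase i) (by rw [card_erase_of_mem hi, hL]; rfl) U
        (fun j => (hC j).mono hUS)
      intro j hj
      rw [mem_erase] at hj
      by_cases hji : j = i
      · rw [hji]; exact hUP
      · exact (hP j (fun h => hj ⟨hji, h⟩)).mono hUS
    have h1 : ∑ i, ∑ u ∈ S, (S.filter (col c i u)).card ≤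
        (l + 1) * (2 * M * M) + (k - (l + 1)) * (2 * S.card) := by
      rw [← sum_add_sum_compl L]
      apply Nat.add_le_add
      · calc ∑ i ∈ L, ∑ u ∈ S, (S.filter (col c i u)).card ≤ ∑ i ∈ L, (2 * M * M) :=
            sum_le_sum fun i hi => sum_degrees (hsymm i) (hirr i) (hC i) (hU i hi)
          _ = (l + 1) * (2 * M * M) := by rw [sum_const, hL, smul_eq_mul]
      · calc ∑ i ∈ Lᶜ, ∑ u ∈ S, (S.filter (col c i u)).card ≤ ∑ i ∈ Lᶜ, 2 * S.card :=
            sum_le_sum fun i hi => sum_degrees_p4free (hsymm i) (hirr i) _ S rfl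
              (hP i (mem_compl.1 hi))
          _ = (k - (l + 1)) * (2 * S.card) := by
            rw [sum_const, card_compl, hL, Fintype.card_fin, smul_eq_mul]
    rw [hcount] at h1
    rcases Nat.eq_zero_or_pos S.card with h0 | h0
    · rw [h0]
      exact_mod_cast bd_nonneg k _ hLk
    · set n := S.card with hn
      have h2 : (n : ℝ) * ((n : ℝ) - 1) ≤
          (l + 1) * (2 * M * M) + ((k : ℝ) - (l + 1)) * (2 * n) := by
        have := (Nat.cast_le (α := ℝ)).2 h1
        push_cast [Nat.cast_sub h0, Nat.cast_sub hLk] at this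
        simpa using this
      unfold bd
      set s := Real.sqrt (2 * ((l : ℝ) + 1)) with hs
      have hs0 : 0 ≤ s := Real.sqrt_nonneg _
      have hs2 : s * s = 2 * ((l : ℝ) + 1) := Real.mul_self_sqrt (by positivity)
      have hkl : ((l : ℝ) + 1) ≤ k := by exact_mod_cast hLk
      have hM0 : (0 : ℝ) ≤ M := Nat.cast_nonneg _
      by_contra hcon
      push Not at hcon
      have h3 : s * M ≤ s * bd k l := mul_le_mul_of_nonneg_left hMr hs0
      have hsM : 0 ≤ s * M := mul_nonneg hs0 hM0
      set x := 2 * ((k : ℝ) - (l + 1)) + 1 with hx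
      have hx1 : 1 ≤ x := by linarith
      have h4 : x + s * M < n := by linarith
      have h5 : (n : ℝ) * (n - x) ≤ (s * M) * (s * M) := by
        have : (s * M) * (s * M) = (l + 1) * (2 * M * M) := by
          calc (s * M) * (s * M) = (s * s) * (M * M) := by ring
            _ = (l + 1) * (2 * M * M) := by rw [hs2]; ring
        rw [this, hx]
        nlinarith
      have h6 : (s * M) * (s * M) < (n : ℝ) * (n - x) := by
        have a1 : s * M < n := by linarith
        have a2 : s * M < n - x := by linarith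
        nlinarith
      linarith

/-- Every colouring of a complete graph on `m` vertices with `m > 5 k √(2^k k!) - 1` contains a
monochromatic pentagon. -/
theorem exists_pentagon {k : ℕ} (hk : 1 ≤ k) {m : ℕ} (hm : 5 * k * den k - 1 < m)
    (c : Fin m → Fin m → Fin k) (hc : ∀ a b, c a b = c b a) :
    ∃ f : Fin 5 → Fin m, Function.Injective f ∧ ∀ i : Fin 5, c (f i) (f (i + 1)) = c (f 0) (f 1) := by
  by_contra hcon
  have hC : ∀ i, C5free (col c i) (univ : Finset (Fin m)) := by
    intro i a _ b _ x _ d _ e _ hab hbx hxd hde hea hax had hbd hbe hxe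
    apply hcon
    refine ⟨![a, b, x, d, e], ?_, ?_⟩
    · intro p q hpq
      have e1 := hab.1
      have e2 := hbx.1
      have e3 := hxd.1
      have e4 := hde.1
      have e5 := hea.1
      fin_cases p <;> fin_cases q <;> first | rfl | (exfalso; simp at hpq; first
        | exact hax hpq | exact hax hpq.symm | exact had hpq | exact had hpq.symm
        | exact hbd hpq | exact hbd hpq.symm | exact hbe hpq | exact hbe hpq.symm
        | exact hxe hpq | exact hxe hpq.symm | exact e1 hpq | exact e1 hpq.symm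
        | exact e2 hpq | exact e2 hpq.symm | exact e3 hpq | exact e3 hpq.symm
        | exact e4 hpq | exact e4 hpq.symm | exact e5 hpq | exact e5 hpq.symm)
    · intro p
      have e1 := hab.2
      have e2 := hbx.2
      have e3 := hxd.2
      have e4 := hde.2
      have e5 := hea.2
      fin_cases p
      · rfl
      · change c b x = c a b; rw [e1, e2]
      · change c x d = c a b; rw [e1, e3]
      · change c d e = c a b; rw [e1, e4]
      · change c e a = c a b; rw [e1, e5]
  have h1 := card_le_bd c hc k univ (by simp) univ hC (fun i hi => absurd (mem_univ i) hi)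
  obtain ⟨l, rfl⟩ : ∃ l, k = l + 1 := ⟨k - 1, by omega⟩
  have h2 := bd_le (l + 1) l le_rfl
  rw [card_univ, Fintype.card_fin] at h1
  push_cast at h1 h2 hm
  linarith

end Pool.Agent.Lib.MP_bf4c0e_co
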